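import Mathlib

set_option autoImplicit false

open scoped ContDiff Topology
open Set Filter

namespace Pool.Agent.X177.SR

/-- the pairing `⟨p, v⟩` of a covector and a vector of `ℝⁿ` -/
def pair {n : ℕ} (p v : Fin n → ℝ) : ℝ := ∑ j, p j * v j

/-- the vector fields generated by the fields `X i` and iterated Lie brackets -/
inductive Generated {n k : ℕ} (X : Fin k → (Fin n → ℝ) → (Fin n → ℝ)) :
    ((Fin n → ℝ) → (Fin n → ℝ)) → Prop
  | of (i : Fin k) : Generated X (X i)
  | bracket (V W : (Fin n → ℝ) → (Fin n → ℝ)) : Generated X V → Generated X W →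
      Generated X (VectorField.lieBracket ℝ V W)

/-- `X` is a smooth orthonormal frame of a sub-Riemannian structure on `ℝⁿ`: the vector fields are
smooth, linearly independent at every point, and bracket-generating. -/
structure IsSubRiemannianFrame {n k : ℕ} (X : Fin k → (Fin n → ℝ) → (Fin n → ℝ)) : Prop where
  smooth : ∀ i, ContDiff ℝ ∞ (X i)
  indep : ∀ x, LinearIndependent ℝ (fun i => X i x)
  bracket_generating : ∀ x, Submodule.span ℝ {v | ∃ V, Generated X V ∧ V x = v} = ⊤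

/-- the sub-Riemannian Hamiltonian `H(x, p) = 1/2 ∑ ⟨p, X_i(x)⟩²` -/
noncomputable def ham {n k : ℕ} (X : Fin k → (Fin n → ℝ) → (Fin n → ℝ)) (x p : Fin n → ℝ) : ℝ :=
  (1 / 2) * ∑ i, pair p (X i x) ^ 2

/-- normal extremals: the solutions `t ↦ (x(t), p(t))` of the Hamiltonian system
`x_j' = ∂H/∂p_j`, `p_j' = -∂H/∂x_j`. -/
def IsNormalExtremal {n k : ℕ} (X : Fin k → (Fin n → ℝ) → (Fin n → ℝ))
    (c : ℝ → (Fin n → ℝ) × (Fin n → ℝ)) : Prop :=
  ∀ t j, HasDerivAt (fun s => (c s).1 j)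
      (fderiv ℝ (fun p => ham X (c t).1 p) (c t).2 (Pi.single j 1)) t ∧
    HasDerivAt (fun s => (c s).2 j)
      (-fderiv ℝ (fun x => ham X x (c t).2) (c t).1 (Pi.single j 1)) t

/-- `ex` is the exponential map at `q`: for every covector `p`, the normal extremal starting at
`(q, p)` exists for all times, and `ex p` is the projection of its time-one point. -/
def IsExpMap {n k : ℕ} (X : Fin k → (Fin n → ℝ) → (Fin n → ℝ)) (q : Fin n → ℝ)
    (ex : (Fin n → ℝ) → (Fin n → ℝ)) : Prop :=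
  ∀ p, (∃ c, IsNormalExtremal X c ∧ c 0 = (q, p)) ∧
    ∀ c, IsNormalExtremal X c → c 0 = (q, p) → (c 1).1 = ex p

/-- the (non-trivial) conjugate covectors at `q` -/
def conjLocus {n k : ℕ} (X : Fin k → (Fin n → ℝ) → (Fin n → ℝ)) (q : Fin n → ℝ)
    (ex : (Fin n → ℝ) → (Fin n → ℝ)) : Set (Fin n → ℝ) :=
  {p | ham X q p ≠ 0 ∧ ¬ Function.Bijective (fderiv ℝ ex p)}

/-- the regular points of a set `C` of covectors: those which have a neighbourhood `U` such that
every straight line through `0` meets `C ∩ U` in at most one point -/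
def regularPoints {n : ℕ} (C : Set (Fin n → ℝ)) : Set (Fin n → ℝ) :=
  {p | p ∈ C ∧ ∃ U ∈ 𝓝 p, ∀ v : Fin n → ℝ, v ≠ 0 → ∀ s t : ℝ, s • v ∈ C ∩ U → t • v ∈ C ∩ U →
    s • v = t • v}

end Pool.Agent.X177.SR
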