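import Mathlib
import Pool.Agent.X177.SR.Defs
import Pool.Agent.H811R2.QLift

set_option autoImplicit false

open scoped ContDiff Topology
open Set Filter

namespace Pool.Agent.X177.SR

abbrev R4 : Type := Fin 4 → ℝ

/-- the frame of `Heisenberg × ℝ` -/
noncomputable def HX (i : Fin 3) (x : R4) : R4 :=
  match i with
  | 0 => ![1, 0, -(x 1) / 2, 0]
  | 1 => ![0, 1, x 0 / 2, 0]
  | 2 => ![0, 0, 0, 1]

theorem HX0 (x : R4) : HX 0 x = ![1, 0, -(x 1) / 2, 0] := rfl
theorem HX1 (x : R4) : HX 1 x = ![0, 1, x 0 / 2, 0] := rfl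
theorem HX2 (x : R4) : HX 2 x = ![0, 0, 0, 1] := rfl

theorem HX_smooth (i : Fin 3) : ContDiff ℝ ∞ (HX i) := by
  apply contDiff_pi.2
  intro j
  fin_cases i <;> fin_cases j <;> simp [HX] <;> fun_prop

theorem HX_indep (x : R4) : LinearIndependent ℝ (fun i => HX i x) := by
  rw [Fintype.linearIndependent_iff]
  intro g hg
  rw [Fin.sum_univ_three] at hg
  have h0 := congrFun hg 0
  have h1 := congrFun hg 1
  have h3 := congrFun hg 3
  simp [HX] at h0 h1 h3
  intro i
  fin_cases i <;> assumption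

theorem ham_eq (x p : R4) : ham HX x p =
    (1 / 2) * ((p 0 - x 1 / 2 * p 2) ^ 2 + (p 1 + x 0 / 2 * p 2) ^ 2 + p 3 ^ 2) := by
  unfold ham pair
  rw [Fin.sum_univ_three, Fin.sum_univ_four, Fin.sum_univ_four, Fin.sum_univ_four]
  simp [HX]
  ring

theorem hasFDerivAt_co (i : Fin 4) (x : R4) : HasFDerivAt (fun y : R4 => y i)
    (ContinuousLinearMap.proj (R := ℝ) (φ := fun _ : Fin 4 => ℝ) i) x :=
  (ContinuousLinearMap.proj (R := ℝ) (φ := fun _ : Fin 4 => ℝ) i).hasFDerivAt

theorem fderiv_p (x p v : R4) : fderiv ℝ (fun p => ham HX x p) p v =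
    (p 0 - x 1 / 2 * p 2) * (v 0 - x 1 / 2 * v 2) + (p 1 + x 0 / 2 * p 2) * (v 1 + x 0 / 2 * v 2)
      + p 3 * v 3 := by
  have h : (fun p => ham HX x p) = fun p : R4 =>
      (1 / 2) * ((p 0 - x 1 / 2 * p 2) ^ 2 + (p 1 + x 0 / 2 * p 2) ^ 2 + p 3 ^ 2) := by
    ext p; exact ham_eq x p
  rw [h]
  have h2 : HasFDerivAt (fun p : R4 =>
      (1 / 2) * ((p 0 - x 1 / 2 * p 2) ^ 2 + (p 1 + x 0 / 2 * p 2) ^ 2 + p 3 ^ 2)) _ p :=
    (((((hasFDerivAt_co 0 p).sub ((hasFDerivAt_co 2 p).const_mul (x 1 / 2))).pow 2).add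
      (((hasFDerivAt_co 1 p).add ((hasFDerivAt_co 2 p).const_mul (x 0 / 2))).pow 2)).add
      ((hasFDerivAt_co 3 p).pow 2)).const_mul (1 / 2)
  rw [h2.fderiv]
  simp
  ring

theorem fderiv_x (x p v : R4) : fderiv ℝ (fun x => ham HX x p) x v =
    -(p 0 - x 1 / 2 * p 2) * (v 1 / 2 * p 2) + (p 1 + x 0 / 2 * p 2) * (v 0 / 2 * p 2) := by
  have h : (fun x => ham HX x p) = fun x : R4 =>
      (1 / 2) * ((p 0 - (p 2 / 2) * x 1) ^ 2 + (p 1 + (p 2 / 2) * x 0) ^ 2 + p 3 ^ 2) := by
    ext x; rw [ham_eq]; ring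
  rw [h]
  have h2 : HasFDerivAt (fun x : R4 =>
      (1 / 2) * ((p 0 - (p 2 / 2) * x 1) ^ 2 + (p 1 + (p 2 / 2) * x 0) ^ 2 + p 3 ^ 2)) _ x :=
    ((((((hasFDerivAt_co 1 x).const_mul (p 2 / 2)).const_sub (p 0)).pow 2).add
      ((((hasFDerivAt_co 0 x).const_mul (p 2 / 2)).const_add (p 1)).pow 2)).add_const
      (p 3 ^ 2)).const_mul (1 / 2)
  rw [h2.fderiv]
  simp
  ring

/-- the Hamiltonian vector field -/
noncomputable def hvf (z : R4 × R4) : R4 × R4 :=
  (![z.2 0 - z.1 1 / 2 * z.2 2, z.2 1 + z.1 0 / 2 * z.2 2,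
      -(z.1 1 / 2) * (z.2 0 - z.1 1 / 2 * z.2 2) + (z.1 0 / 2) * (z.2 1 + z.1 0 / 2 * z.2 2),
      z.2 3],
    ![-((z.2 1 + z.1 0 / 2 * z.2 2) * (z.2 2 / 2)), (z.2 0 - z.1 1 / 2 * z.2 2) * (z.2 2 / 2),
      0, 0])

theorem hvf_smooth : ContDiff ℝ 1 hvf := by
  unfold hvf
  apply ContDiff.prodMk
  · apply contDiff_pi.2
    intro j
    fin_cases j <;> simp <;> fun_prop
  · apply contDiff_pi.2
    intro j
    fin_cases j <;> simp <;> fun_prop

theorem extremal_iff (c : ℝ → R4 × R4) : IsNormalExtremal HX c ↔ ∀ t, HasDerivAt c (hvf (c t)) t := by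
  constructor
  · intro h t
    have h1 : HasDerivAt (fun s => (c s).1) (hvf (c t)).1 t := by
      rw [hasDerivAt_pi]
      intro j
      have h2 := (h t j).1
      rw [fderiv_p] at h2
      refine h2.congr_deriv ?_
      fin_cases j <;> simp [hvf]
      ring
    have h3 : HasDerivAt (fun s => (c s).2) (hvf (c t)).2 t := by
      rw [hasDerivAt_pi]
      intro j
      have h2 := (h t j).2
      rw [fderiv_x] at h2
      refine h2.congr_deriv ?_
      fin_cases j <;> simp [hvf, -mul_eq_mul_left_iff, -mul_eq_mul_right_iff] <;> ring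
    exact h1.prodMk h3
  · intro h t j
    have h1 : HasDerivAt (fun s => (c s).1) (hvf (c t)).1 t :=
      (ContinuousLinearMap.fst ℝ R4 R4).hasFDerivAt.comp_hasDerivAt t (h t)
    have h2 : HasDerivAt (fun s => (c s).2) (hvf (c t)).2 t :=
      (ContinuousLinearMap.snd ℝ R4 R4).hasFDerivAt.comp_hasDerivAt t (h t)
    rw [hasDerivAt_pi] at h1 h2
    refine ⟨(h1 j).congr_deriv ?_, (h2 j).congr_deriv ?_⟩
    · rw [fderiv_p]
      fin_cases j <;> simp [hvf]
      ring
    · rw [fderiv_x]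
      fin_cases j <;> simp [hvf, -mul_eq_mul_left_iff, -mul_eq_mul_right_iff] <;> ring

/-- explicit extremals, `w ≠ 0` -/
noncomputable def sol (p : R4) (t : ℝ) : R4 × R4 :=
  if p 2 = 0 then (![p 0 * t, p 1 * t, 0, p 3 * t], p) else
  (![(p 0 * Real.sin (p 2 * t) - p 1 * (1 - Real.cos (p 2 * t))) / p 2,
      (p 0 * (1 - Real.cos (p 2 * t)) + p 1 * Real.sin (p 2 * t)) / p 2,
      (p 0 ^ 2 + p 1 ^ 2) * (p 2 * t - Real.sin (p 2 * t)) / (2 * p 2 ^ 2), p 3 * t],
    ![(p 0 * (1 + Real.cos (p 2 * t)) - p 1 * Real.sin (p 2 * t)) / 2,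
      (p 0 * Real.sin (p 2 * t) + p 1 * (1 + Real.cos (p 2 * t))) / 2, p 2, p 3])

theorem sol_zero (p : R4) : sol p 0 = (0, p) := by
  unfold sol
  split_ifs with h
  · simp
  · simp
    ext i; fin_cases i <;> simp <;> ring

theorem sol_extremal (p : R4) (t : ℝ) : HasDerivAt (sol p) (hvf (sol p t)) t := by
  by_cases h : p 2 = 0
  · have h1 : sol p = fun t => (![p 0 * t, p 1 * t, 0, p 3 * t], p) := by
      ext1 t; unfold sol; rw [if_pos h]
    rw [h1]
    apply HasDerivAt.prodMk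
    · rw [hasDerivAt_pi]
      intro j
      fin_cases j
      · simpa [hvf, h] using (hasDerivAt_id t).const_mul (p 0)
      · simpa [hvf, h] using (hasDerivAt_id t).const_mul (p 1)
      · refine (hasDerivAt_const t (0 : ℝ)).congr_deriv ?_
        simp [hvf, h]
        ring
      · simpa [hvf, h] using (hasDerivAt_id t).const_mul (p 3)
    · refine (hasDerivAt_const t p).congr_deriv ?_
      ext j
      fin_cases j <;> simp [hvf, h]
  · have h1 : sol p = fun t =>
      (![(p 0 * Real.sin (p 2 * t) - p 1 * (1 - Real.cos (p 2 * t))) / p 2,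
      (p 0 * (1 - Real.cos (p 2 * t)) + p 1 * Real.sin (p 2 * t)) / p 2,
      (p 0 ^ 2 + p 1 ^ 2) * (p 2 * t - Real.sin (p 2 * t)) / (2 * p 2 ^ 2), p 3 * t],
      ![(p 0 * (1 + Real.cos (p 2 * t)) - p 1 * Real.sin (p 2 * t)) / 2,
      (p 0 * Real.sin (p 2 * t) + p 1 * (1 + Real.cos (p 2 * t))) / 2, p 2, p 3]) := by
      ext1 t; unfold sol; rw [if_neg h]
    rw [h1]
    have hw : HasDerivAt (fun t : ℝ => p 2 * t) (p 2) t := by
      simpa using (hasDerivAt_id t).const_mul (p 2)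
    have hs := hw.sin
    have hc := hw.cos
    have hSC : Real.sin (p 2 * t) ^ 2 + Real.cos (p 2 * t) ^ 2 = 1 := Real.sin_sq_add_cos_sq _
    apply HasDerivAt.prodMk
    · rw [hasDerivAt_pi]
      intro j
      fin_cases j
      · refine (((hs.const_mul (p 0)).sub ((hc.const_sub 1).const_mul (p 1))).div_const
          (p 2)).congr_deriv ?_
        simp [hvf]
        field_simp
        ring
      · refine ((((hc.const_sub 1).const_mul (p 0)).add (hs.const_mul (p 1))).div_const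
          (p 2)).congr_deriv ?_
        simp [hvf]
        field_simp
        ring
      · refine (((hw.sub hs).const_mul (p 0 ^ 2 + p 1 ^ 2)).div_const
          (2 * p 2 ^ 2)).congr_deriv ?_
        simp [hvf]
        field_simp
        linear_combination (-2 * (p 0 ^ 2 + p 1 ^ 2)) * hSC
      · simpa [hvf] using (hasDerivAt_id t).const_mul (p 3)
    · rw [hasDerivAt_pi]
      intro j
      fin_cases j
      · refine ((((hc.const_add 1).const_mul (p 0)).sub (hs.const_mul (p 1))).div_const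
          2).congr_deriv ?_
        simp [hvf]
        field_simp
        ring
      · refine (((hs.const_mul (p 0)).add ((hc.const_add 1).const_mul (p 1))).div_const
          2).congr_deriv ?_
        simp [hvf]
        field_simp
        ring
      · refine (hasDerivAt_const t (p 2)).congr_deriv ?_
        simp [hvf]
      · refine (hasDerivAt_const t (p 3)).congr_deriv ?_
        simp [hvf]

/-- the exponential map at the origin -/
noncomputable def hex (p : R4) : R4 := (sol p 1).1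

theorem isExpMap : IsExpMap HX 0 hex := by
  intro p
  refine ⟨⟨sol p, (extremal_iff _).2 (sol_extremal p), sol_zero p⟩, ?_⟩
  intro c hc h0
  have h := Pool.Agent.H811R2.Quad.ode_unique hvf_smooth ((extremal_iff c).1 hc) (sol_extremal p)
    (t0 := 0) (by rw [h0, sol_zero])
  rw [h]
  rfl

end Pool.Agent.X177.SR
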